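import Pool.Agent.Lib_MP_418a80_full.Unit
import Pool.Agent.Lib_MP_418a80_hyp.HUlim

/-!
# Full II₁ factors, steps 2 and 3: FAR and NEAR
-/

set_option autoImplicit false
set_option linter.unusedVariables false
set_option linter.unusedSectionVars false

open Topology Filter

namespace Pool.Agent.AbCoc

universe u v w

section
variable {A : Type u} [CStarAlgebra A] {K : Type v} [NormedAddCommGroup K]
  [InnerProductSpace ℂ K]

/-- step 1 in the form used below: almost intertwining contractions -/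
theorem TrAlg.exists_contraction (T : TrAlg A K) (F0 : Finset A) (C0 : ℝ) (hC0 : 0 ≤ C0)
    (hgap : T.Gap F0 C0) (hF0 : ∀ u ∈ F0, star u * u = 1 ∧ u * star u = 1) {η : ℝ}
    (hη : 0 < η) : ∃ d : ℝ, 0 < d ∧ ∀ (F : Finset A), F0 ⊆ F →
      (∀ u ∈ F, star u * u = 1 ∧ u * star u = 1) →
      ∀ (v : A → A), (∀ u ∈ F, v u * star (v u) = 1) → ∀ z : A, ‖T.ι z‖ = 1 →
      (∀ u ∈ F, ‖T.ι (u * z - z * v u)‖ ≤ d) →
      ∃ (w : A) (t : ℂ), ‖w‖ ≤ 1 ∧ ‖t‖ ≤ 1 ∧ ‖T.ι (z - t • w)‖ ≤ η ∧ 1 - η ≤ ‖T.ι w‖ ∧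
        ∀ u ∈ F, ‖T.ι (u * w - w * v u)‖ ≤ η := by
  obtain ⟨η', hη'⟩ : ∃ η' : ℝ, η' = min η 1 / 8 := ⟨_, rfl⟩
  have hη0 : 0 < η' := by rw [hη']; have := lt_min hη one_pos; positivity
  have hη1 : 8 * η' ≤ 1 := by rw [hη']; have := min_le_right η 1; linarith
  have hη2 : 8 * η' ≤ η := by rw [hη']; have := min_le_left η 1; linarith
  obtain ⟨B, hB⟩ : ∃ B : ℝ, B = C0 * (F0.card * 2) := ⟨_, rfl⟩
  have hB0 : 0 ≤ B := by rw [hB]; positivity
  obtain ⟨d, hd⟩ : ∃ d : ℝ, d = min η' (η' ^ 2 / (B + 1)) := ⟨_, rfl⟩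
  have hd0 : 0 < d := by rw [hd]; exact lt_min hη0 (by positivity)
  have hd1 : d ≤ η' := by rw [hd]; exact min_le_left _ _
  have hd2 : B * d ≤ η' ^ 2 := by
    have h1 : d ≤ η' ^ 2 / (B + 1) := by rw [hd]; exact min_le_right _ _
    rw [le_div_iff₀ (by positivity)] at h1
    nlinarith
  refine ⟨d, hd0, fun F hF0F hF v hv z hz hdz => ?_⟩
  obtain ⟨w, t, hw, ht, hzt⟩ := T.unitarise F0 C0 hC0 hgap hF0 z hz v
    (fun u hu => hv u (hF0F hu)) (fun u hu => hdz u (hF0F hu)) hη0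
  have hs : Real.sqrt (C0 * (F0.card * (2 * d))) ≤ η' := by
    refine Real.sqrt_le_iff.2 ⟨hη0.le, ?_⟩
    calc C0 * (F0.card * (2 * d)) = B * d := by rw [hB]; ring
      _ ≤ η' ^ 2 := hd2
  have hzt' : ‖T.ι (z - t • w)‖ ≤ 2 * η' := by linarith
  have hwι : ‖T.ι w‖ ≤ 1 := (T.norm_le w).trans hw
  have htw : 1 - 2 * η' ≤ ‖t‖ * ‖T.ι w‖ := by
    have h1 : ‖T.ι z‖ ≤ ‖T.ι (z - t • w)‖ + ‖T.ι (t • w)‖ := by
      rw [map_sub]
      have := norm_add_le (T.ι z - T.ι (t • w)) (T.ι (t • w))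
      rwa [sub_add_cancel] at this
    rw [hz, map_smul, norm_smul] at h1
    linarith
  have ht1 : 1 - 2 * η' ≤ ‖t‖ := htw.trans (mul_le_of_le_one_right (norm_nonneg _) hwι)
  have hw1 : 1 - 2 * η' ≤ ‖T.ι w‖ := htw.trans (mul_le_of_le_one_left (norm_nonneg _) ht)
  refine ⟨w, t, hw, ht, by linarith, by linarith, fun u hu => ?_⟩
  have e : t • (u * w - w * v u)
      = (u * z - z * v u) - (u * (z - t • w) - (z - t • w) * v u) := by
    rw [mul_sub, sub_mul, mul_smul_comm, smul_mul_assoc, smul_sub]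
    abel
  have h1 : ‖T.ι (u * (z - t • w))‖ = ‖T.ι (z - t • w)‖ := T.norm_unitary_mul u (hF u hu).1 _
  have h2 : ‖T.ι ((z - t • w) * v u)‖ = ‖T.ι (z - t • w)‖ := T.norm_mul_unitary _ (hv u hu) _
  have h3 : ‖t‖ * ‖T.ι (u * w - w * v u)‖ ≤ 5 * η' := by
    rw [← norm_smul, ← map_smul, e, map_sub T.ι (u * z - z * v u),
      map_sub T.ι (u * (z - t • w))]
    calc ‖T.ι (u * z - z * v u) - (T.ι (u * (z - t • w)) - T.ι ((z - t • w) * v u))‖
        ≤ ‖T.ι (u * z - z * v u)‖ + ‖T.ι (u * (z - t • w)) - T.ι ((z - t • w) * v u)‖ :=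
          norm_sub_le _ _
      _ ≤ d + (‖T.ι (u * (z - t • w))‖ + ‖T.ι ((z - t • w) * v u)‖) :=
          add_le_add (hdz u hu) (norm_sub_le _ _)
      _ ≤ 5 * η' := by rw [h1, h2]; linarith
  have h4 : (3 / 4 : ℝ) ≤ ‖t‖ := by linarith
  have h5 : (3 / 4 : ℝ) * ‖T.ι (u * w - w * v u)‖ ≤ 5 * η' :=
    (mul_le_mul_of_nonneg_right h4 (norm_nonneg _)).trans h3
  linarith

end

section
variable {A : Type u} [CStarAlgebra A] {K : Type v} [NormedAddCommGroup K]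
  [InnerProductSpace ℂ K]
variable {G : Type w} [Group G] [TopologicalSpace G] {T : TrAlg A K} (S : TrAct G T)

theorem TrAct.α_unit {F : Finset A} (hF : IsUSet F) (g : G) {u : A} (hu : u ∈ F) :
    star (S.α g u) * S.α g u = 1 ∧ S.α g u * star (S.α g u) = 1 := by
  constructor
  · rw [← map_star, ← map_mul, (hF.unit u hu).1, map_one]
  · rw [← map_star, ← map_mul, (hF.unit u hu).2, map_one]

theorem TrAct.Tg_term_norm {F : Finset A} (hF : IsUSet F) (g : G) (z : A) {u : A} (hu : u ∈ F) :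
    ‖T.ι (star u * z * S.α g u)‖ = ‖T.ι z‖ := by
  rw [T.norm_mul_unitary _ (S.α_unit hF g hu).2,
    T.norm_unitary_mul _ (by rw [star_star]; exact (hF.unit u hu).2)]

/-- a vector whose norm is almost preserved by `T_g` is almost intertwining -/
theorem TrAct.almost_of_Tg {F : Finset A} (hF : IsUSet F) (g : G) (z : A) (hz : ‖T.ι z‖ = 1)
    {c : ℝ} (hc : 0 ≤ c) (h : 1 - c ≤ ‖T.ι (S.Tg F g z)‖) {u : A} (hu : u ∈ F) :
    ‖T.ι (u * z - z * S.α g u)‖ ^ 2 ≤ 4 * (c * F.card) := by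
  classical
  have hcard : (0 : ℝ) < F.card := Nat.cast_pos.2 (Finset.card_pos.2 ⟨1, hF.one_mem⟩)
  obtain ⟨V, hV⟩ : ∃ V : A → K, ∀ u, V u = T.ι (star u * z * S.α g u) := ⟨_, fun _ => rfl⟩
  have hV1 : ∀ u ∈ F, ‖V u‖ = 1 := fun u hu => by rw [hV, S.Tg_term_norm hF g z hu, hz]
  have hVz : V 1 = T.ι z := by rw [hV, star_one, one_mul, map_one, mul_one]
  have hsum : (1 - c) * F.card ≤ ‖∑ u ∈ F, V u‖ := by
    have h1 : ‖T.ι (S.Tg F g z)‖ = (F.card : ℝ)⁻¹ * ‖∑ u ∈ F, V u‖ := by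
      rw [TrAct.Tg, map_smul, map_sum, norm_smul, norm_inv, Complex.norm_natCast]
      simp only [hV]
    rw [h1, inv_mul_eq_div, le_div_iff₀ hcard] at h
    exact h
  have e1 : ‖T.ι (u * z - z * S.α g u)‖ = ‖V u - V 1‖ := by
    rw [hVz, hV, ← map_sub, ← T.norm_unitary_mul u (hF.unit u hu).1 (star u * z * S.α g u - z)]
    rw [← norm_neg, ← map_neg]
    congr 2
    rw [mul_sub, ← mul_assoc, ← mul_assoc, (hF.unit u hu).2, one_mul]
    abel
  rw [e1]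
  by_cases hu1 : u = 1
  · rw [hu1, sub_self, norm_zero, zero_pow two_ne_zero]
    positivity
  have hmem : (1 : A) ∈ F.erase u := Finset.mem_erase.2 ⟨Ne.symm hu1, hF.one_mem⟩
  have hsplit : ∑ x ∈ F, V x = (V u + V 1) + ∑ x ∈ (F.erase u).erase 1, V x := by
    rw [← Finset.add_sum_erase F V hu, ← Finset.add_sum_erase (F.erase u) V hmem]
    abel
  have hrest : ‖∑ x ∈ (F.erase u).erase 1, V x‖ ≤ F.card - 2 := by
    have h1 : ‖∑ x ∈ (F.erase u).erase 1, V x‖ ≤ ((F.erase u).erase 1).card • (1 : ℝ) :=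
      (norm_sum_le _ _).trans (Finset.sum_le_card_nsmul _ _ _ fun x hx =>
        (hV1 x (Finset.mem_of_mem_erase (Finset.mem_of_mem_erase hx))).le)
    have h2 : ((F.erase u).erase 1).card + 2 = F.card := by
      have h3 := Finset.card_erase_add_one hmem
      have h4 := Finset.card_erase_add_one hu
      omega
    have h5 : (((F.erase u).erase 1).card : ℝ) + 2 = F.card := by exact_mod_cast h2
    rw [nsmul_eq_mul, mul_one] at h1
    linarith
  have hplus : 2 - c * F.card ≤ ‖V u + V 1‖ := by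
    have h1 := norm_add_le (V u + V 1) (∑ x ∈ (F.erase u).erase 1, V x)
    rw [← hsplit] at h1
    linarith
  have hpar := parallelogram_law_with_norm ℂ (V u) (V 1)
  have hn1 := hV1 u hu
  have hn2 := hV1 1 hF.one_mem
  rw [hn1, hn2] at hpar
  have hcF : 0 ≤ c * F.card := by positivity
  by_cases hc2 : c * F.card ≤ 2
  · have h1 : (2 - c * F.card) ^ 2 ≤ ‖V u + V 1‖ ^ 2 := pow_le_pow_left₀ (by linarith) hplus 2
    nlinarith
  · nlinarith [norm_nonneg (V u + V 1), norm_nonneg (V u - V 1)]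

end

section
variable {A : Type u} [CStarAlgebra A] {K : Type v} [NormedAddCommGroup K]
  [InnerProductSpace ℂ K] [CompleteSpace K]
variable {G : Type w} [Group G] [TopologicalSpace G] {T : TrAlg A K} (S : TrAct G T)

/-- step 3: NEAR -/
theorem TrAct.near (F0 : Finset A) (C0 : ℝ) (hC0 : 0 ≤ C0) (hgap : T.Gap F0 C0)
    (hF0 : ∀ u ∈ F0, star u * u = 1 ∧ u * star u = 1) {δ : ℝ} (hδ : 0 < δ) :
    ∃ V ∈ 𝓝 (1 : G), ∀ F : Finset A, IsUSet F → F0 ⊆ F → ∃ c : ℝ, 0 < c ∧ ∀ g ∈ V, ∀ z : A,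
      (1 - c) * ‖T.ι z‖ ≤ ‖T.ι (S.Tg F g z)‖ → ‖T.ι (z - T.τ z • 1)‖ ≤ δ * ‖T.ι z‖ := by
  obtain ⟨B, hB⟩ : ∃ B : ℝ, B = Real.sqrt (C0 * F0.card) := ⟨_, rfl⟩
  have hB0 : 0 ≤ B := by rw [hB]; exact Real.sqrt_nonneg _
  obtain ⟨η, hη⟩ : ∃ η : ℝ, η = δ / (4 * (B + 1)) := ⟨_, rfl⟩
  have hη0 : 0 < η := by rw [hη]; positivity
  have hηδ : 2 * η + B * (2 * η) ≤ δ := by
    have : η * (4 * (B + 1)) = δ := by rw [hη]; exact div_mul_cancel₀ _ (by positivity)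
    nlinarith
  obtain ⟨d, hd, hw⟩ := T.exists_contraction F0 C0 hC0 hgap hF0 hη0
  obtain ⟨V, hV⟩ : ∃ V : Set G, V = {g | ∀ u ∈ F0, ‖T.ι (S.α g u) - T.ι u‖ < η} := ⟨_, rfl⟩
  have hVn : V ∈ 𝓝 (1 : G) := by
    rw [hV]
    have : {g | ∀ u ∈ F0, ‖T.ι (S.α g u) - T.ι u‖ < η}
        = ⋂ u ∈ F0, {g | ‖T.ι (S.α g u) - T.ι u‖ < η} := by
      ext g
      simp
    rw [this]
    refine (Filter.biInter_finset_mem F0).2 fun u hu => ?_
    have h1 : Continuous fun g => ‖T.ι (S.α g u) - T.ι u‖ :=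
      ((S.cont u).sub continuous_const).norm
    refine (isOpen_lt h1 continuous_const).mem_nhds ?_
    change ‖T.ι (S.α 1 u) - T.ι u‖ < η
    rw [S.one, sub_self, norm_zero]
    exact hη0
  refine ⟨V, hVn, fun F hF hF0F => ?_⟩
  have hcard : (0 : ℝ) < F.card := Nat.cast_pos.2 (Finset.card_pos.2 ⟨1, hF.one_mem⟩)
  refine ⟨d ^ 2 / (4 * F.card), by positivity, fun g hg z hz => ?_⟩
  rcases eq_or_ne z 0 with rfl | hz0
  · have h0 : (0 : A) - T.τ 0 • 1 = 0 := by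
      have : T.τ (0 : A) = 0 := by rw [TrAlg.τ, map_zero, inner_zero_right]
      rw [this, zero_smul, sub_zero]
    rw [h0, map_zero, norm_zero, mul_zero]
  have hzn : 0 < ‖T.ι z‖ := norm_pos_iff.2 fun h => hz0 (T.inj (by rw [h, map_zero]))
  -- normalise
  obtain ⟨r, hr⟩ : ∃ r : ℂ, r = ((‖T.ι z‖⁻¹ : ℝ) : ℂ) := ⟨_, rfl⟩
  have hrn : ‖r‖ = ‖T.ι z‖⁻¹ := by
    rw [hr, Complex.norm_real, Real.norm_of_nonneg (by positivity)]
  have hr0 : 0 < ‖r‖ := by rw [hrn]; positivity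
  obtain ⟨y, hy⟩ : ∃ y, y = r • z := ⟨_, rfl⟩
  have hy1 : ‖T.ι y‖ = 1 := by
    rw [hy, map_smul, norm_smul, hrn]
    exact inv_mul_cancel₀ hzn.ne'
  have hTy : S.Tg F g y = r • S.Tg F g z := by
    unfold TrAct.Tg
    rw [hy, smul_comm]
    congr 1
    rw [Finset.smul_sum]
    refine Finset.sum_congr rfl fun u _ => ?_
    rw [mul_smul_comm, smul_mul_assoc]
  have hTy1 : 1 - d ^ 2 / (4 * F.card) ≤ ‖T.ι (S.Tg F g y)‖ := by
    rw [hTy, map_smul, norm_smul]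
    have h1 := mul_le_mul_of_nonneg_left hz hr0.le
    have h2 : ‖r‖ * ((1 - d ^ 2 / (4 * F.card)) * ‖T.ι z‖) = 1 - d ^ 2 / (4 * F.card) := by
      rw [hrn]
      field_simp
    rwa [h2] at h1
  have hint : ∀ u ∈ F, ‖T.ι (u * y - y * S.α g u)‖ ≤ d := by
    intro u hu
    have h1 := S.almost_of_Tg hF g y hy1 (by positivity) hTy1 hu
    have h2 : 4 * (d ^ 2 / (4 * F.card) * F.card) = d ^ 2 := by field_simp
    rw [h2] at h1
    exact (pow_le_pow_iff_left₀ (norm_nonneg _) hd.le two_ne_zero).1 h1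
  obtain ⟨w, t, hw1, ht1, hyt, -, hwi⟩ := hw F hF0F hF.unit (S.α g)
    (fun u hu => (S.α_unit hF g hu).2) y hy1 hint
  rw [hV] at hg
  have hcw : ∀ u ∈ F0, ‖T.ι (u * w - w * u)‖ ≤ 2 * η := by
    intro u hu
    have e : u * w - w * u = (u * w - w * S.α g u) + w * (S.α g u - u) := by
      rw [mul_sub]; abel
    rw [e, map_add]
    refine (norm_add_le _ _).trans ?_
    have h1 := hwi u (hF0F hu)
    have h2 : ‖T.ι (w * (S.α g u - u))‖ ≤ η := by
      refine (T.mul_le _ _).trans ?_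
      rw [map_sub]
      calc ‖w‖ * ‖T.ι (S.α g u) - T.ι u‖ ≤ 1 * η :=
            mul_le_mul hw1 (hg u hu).le (norm_nonneg _) zero_le_one
        _ = η := one_mul _
    linarith
  have hwτ : ‖T.ι (w - T.τ w • 1)‖ ≤ B * (2 * η) := by
    have h1 : ‖T.ι (w - T.τ w • 1)‖ ^ 2 ≤ C0 * (F0.card * (2 * η) ^ 2) := by
      refine (hgap w).trans (mul_le_mul_of_nonneg_left ?_ hC0)
      refine (Finset.sum_le_card_nsmul F0 _ ((2 * η) ^ 2) fun u hu =>
        pow_le_pow_left₀ (norm_nonneg _) (hcw u hu) 2).trans ?_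
      rw [nsmul_eq_mul]
    have hBs : B ^ 2 = C0 * F0.card := by rw [hB]; exact Real.sq_sqrt (by positivity)
    have h2 : C0 * (F0.card * (2 * η) ^ 2) = (B * (2 * η)) ^ 2 := by
      rw [mul_pow B, hBs]
      ring
    rw [h2] at h1
    exact (pow_le_pow_iff_left₀ (norm_nonneg _) (by positivity) two_ne_zero).1 h1
  have hyτ : ‖T.ι (y - T.τ y • 1)‖ ≤ δ := by
    have e : y - T.τ y • (1 : A)
        = (y - t • w) - T.τ (y - t • w) • (1 : A) + t • (w - T.τ w • 1) := by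
      rw [T.τ_sub, T.τ_smul, smul_sub, smul_smul, sub_smul]
      abel
    rw [e, map_add, map_sub, map_smul, map_smul]
    refine (norm_add_le _ _).trans ?_
    have h1 : ‖T.ι (y - t • w) - T.τ (y - t • w) • T.ι 1‖ ≤ 2 * η := by
      refine (norm_sub_le _ _).trans ?_
      rw [norm_smul, T.norm_one, mul_one]
      have := (T.norm_τ_le_two (y - t • w)).trans hyt
      linarith
    have h2 : ‖t • T.ι (w - T.τ w • 1)‖ ≤ B * (2 * η) := by
      rw [norm_smul]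
      calc ‖t‖ * ‖T.ι (w - T.τ w • 1)‖ ≤ 1 * (B * (2 * η)) :=
            mul_le_mul ht1 hwτ (norm_nonneg _) zero_le_one
        _ = _ := one_mul _
    linarith
  have e2 : ‖T.ι (y - T.τ y • 1)‖ = ‖r‖ * ‖T.ι (z - T.τ z • 1)‖ := by
    rw [← norm_smul, ← map_smul]
    congr 2
    rw [hy, T.τ_smul, smul_sub, smul_smul]
  rw [e2, hrn, inv_mul_le_iff₀ hzn] at hyτ
  linarith

end

end Pool.Agent.AbCoc
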