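import Pool.Agent.Lib_MP_418a80_full.Far

/-!
# Full II₁ factors, step 2: FAR
-/

set_option autoImplicit false
set_option linter.unusedVariables false
set_option linter.unusedSectionVars false

open Topology Filter

namespace Pool.Agent.AbCoc

universe u v w

section
variable {A : Type u} [CStarAlgebra A] {K : Type v} [NormedAddCommGroup K]
  [InnerProductSpace ℂ K]

/-- `|1 - w* w|² ≤ 1 - |w|²` for contractions -/
theorem TrAlg.norm_one_sub_sq (T : TrAlg A K) (w : A) (hw : ‖w‖ ≤ 1) :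
    ‖T.ι (1 - star w * w)‖ ^ 2 ≤ 1 - ‖T.ι w‖ ^ 2 := by
  have hp : star (1 - star w * w) = 1 - star w * w := by
    rw [star_sub, star_one, star_mul, star_star]
  have h1 : ‖T.ι (1 - star w * w)‖ ^ 2
      = 1 - 2 * (T.τ (star w * w)).re + (T.τ (star w * w * (star w * w))).re := by
    rw [T.norm_sq, hp]
    have e : (1 - star w * w) * (1 - star w * w)
        = 1 - star w * w - star w * w + star w * w * (star w * w) := by noncomm_ring
    rw [e, T.τ_add, T.τ_sub, T.τ_sub, T.τ_one]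
    simp only [Complex.add_re, Complex.sub_re, Complex.one_re]
    ring
  have h2 : (T.τ (star w * w)).re = ‖T.ι w‖ ^ 2 := (T.norm_sq w).symm
  have h3 : (T.τ (star w * w * (star w * w))).re ≤ ‖T.ι w‖ ^ 2 := by
    have e : (T.τ (star w * w * (star w * w))).re = ‖T.ι (star w * w)‖ ^ 2 := by
      rw [T.norm_sq, star_mul, star_star]
    rw [e]
    refine pow_le_pow_left₀ (norm_nonneg _) ?_ 2
    refine (T.mul_le _ _).trans ?_
    rw [_root_.norm_star]
    calc ‖w‖ * ‖T.ι w‖ ≤ 1 * ‖T.ι w‖ := mul_le_mul_of_nonneg_right hw (norm_nonneg _)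
      _ = _ := one_mul _
  rw [h1, h2]
  linarith

/-- the set of the symmetrised unitaries -/
theorem exists_uset (F0 : Finset A) (hF0 : ∀ u ∈ F0, star u * u = 1 ∧ u * star u = 1) :
    ∃ F : Finset A, IsUSet F ∧ F0 ⊆ F := by
  classical
  refine ⟨insert 1 (F0 ∪ F0.image star), ⟨?_, ?_, ?_⟩, ?_⟩
  · intro u hu
    simp only [Finset.mem_insert, Finset.mem_union, Finset.mem_image] at hu
    rcases hu with rfl | hu | ⟨v, hv, rfl⟩
    · simp
    · exact hF0 u hu
    · rw [star_star]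
      exact ⟨(hF0 v hv).2, (hF0 v hv).1⟩
  · intro u hu
    simp only [Finset.mem_insert, Finset.mem_union, Finset.mem_image] at hu ⊢
    rcases hu with rfl | hu | ⟨v, hv, rfl⟩
    · exact Or.inl (star_one A)
    · exact Or.inr (Or.inr ⟨u, hu, rfl⟩)
    · rw [star_star]
      exact Or.inr (Or.inl hv)
  · exact Finset.mem_insert_self _ _
  · intro u hu
    exact Finset.mem_insert_of_mem (Finset.mem_union_left _ hu)

end

section
variable {A : Type u} [CStarAlgebra A] {K : Type v} [NormedAddCommGroup K]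
  [InnerProductSpace ℂ K] [CompleteSpace K]
variable {G : Type w} [Group G] [TopologicalSpace G] {T : TrAlg A K} (S : TrAct G T)

/-- a sequence of almost intertwining contractions gives an intertwining unitary -/
theorem TrAct.exists_intertwiner (F0 : Finset A) (C0 : ℝ) (hC0 : 0 ≤ C0) (hgap : T.Gap F0 C0)
    (hF0 : ∀ u ∈ F0, star u * u = 1 ∧ u * star u = 1) (g : G) (W : ℕ → A)
    (hW : ∀ n, ‖W n‖ ≤ 1) (hW1 : Tendsto (fun n => ‖T.ι (W n)‖) atTop (𝓝 1))
    (hWi : ∀ u : A, star u * u = 1 → u * star u = 1 →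
      Tendsto (fun n => ‖T.ι (u * W n - W n * S.α g u)‖) atTop (𝓝 0)) :
    ∃ w : A, star w * w = 1 ∧ w * star w = 1 ∧ ∀ x, x * w = w * S.α g x := by
  classical
  -- the scalars
  obtain ⟨lam, hlam⟩ : ∃ lam : ℕ → ℕ → ℂ, ∀ n m, lam n m = T.τ (W n * star (W m)) :=
    ⟨_, fun _ _ => rfl⟩
  have hlam1 : ∀ n m, ‖lam n m‖ ≤ 1 := by
    intro n m
    rw [hlam]
    refine (T.norm_τ_le_two _).trans ((T.norm_le _).trans ((norm_mul_le _ _).trans ?_))
    rw [_root_.norm_star]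
    calc ‖W n‖ * ‖W m‖ ≤ 1 * 1 := mul_le_mul (hW n) (hW m) (norm_nonneg _) zero_le_one
      _ = 1 := one_mul _
  obtain ⟨a, ha⟩ : ∃ a : A → ℕ → ℝ, ∀ u n, a u n = ‖T.ι (u * W n - W n * S.α g u)‖ :=
    ⟨_, fun _ _ => rfl⟩
  have ha0 : ∀ u : A, star u * u = 1 → u * star u = 1 → Tendsto (a u) atTop (𝓝 0) := by
    intro u h1 h2
    have : a u = fun n => ‖T.ι (u * W n - W n * S.α g u)‖ := funext (ha u)
    rw [this]
    exact hWi u h1 h2
  obtain ⟨s, hs⟩ : ∃ s : ℕ → ℝ, ∀ n, s n = 1 - ‖T.ι (W n)‖ ^ 2 := ⟨_, fun _ => rfl⟩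
  have hs0 : Tendsto s atTop (𝓝 0) := by
    have h1 : Tendsto (fun n => 1 - ‖T.ι (W n)‖ ^ 2) atTop (𝓝 (1 - 1 ^ 2)) :=
      tendsto_const_nhds.sub (hW1.pow 2)
    rw [one_pow, sub_self] at h1
    exact h1.congr fun n => (hs n).symm
  -- the main estimate
  have hcomm : ∀ n m, ∀ u ∈ F0, ‖T.ι (u * (W n * star (W m)) - W n * star (W m) * u)‖
      ≤ a u n + a (star u) m := by
    intro n m u hu
    have hu1 := (hF0 u hu).1
    have hu2 := (hF0 u hu).2
    have e : u * (W n * star (W m)) - W n * star (W m) * u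
        = (u * W n - W n * S.α g u) * star (W m)
          - W n * star (star u * W m - W m * S.α g (star u)) := by
      rw [star_sub, star_mul, star_mul, star_star, map_star, star_star]
      noncomm_ring
    rw [e, map_sub]
    refine (norm_sub_le _ _).trans (add_le_add ?_ ?_)
    · refine (T.mul_le' _ _).trans ?_
      rw [ha, _root_.norm_star]
      calc ‖T.ι (u * W n - W n * S.α g u)‖ * ‖W m‖ ≤ ‖T.ι (u * W n - W n * S.α g u)‖ * 1 :=
            mul_le_mul_of_nonneg_left (hW m) (norm_nonneg _)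
        _ = _ := mul_one _
    · refine (T.mul_le _ _).trans ?_
      rw [T.norm_star, ha]
      calc ‖W n‖ * ‖T.ι (star u * W m - W m * S.α g (star u))‖
          ≤ 1 * ‖T.ι (star u * W m - W m * S.α g (star u))‖ :=
            mul_le_mul_of_nonneg_right (hW n) (norm_nonneg _)
        _ = _ := one_mul _
  have hX : ∀ n m, ‖T.ι (W n * star (W m) - lam n m • 1)‖ ^ 2
      ≤ C0 * ∑ u ∈ F0, (a u n + a (star u) m) ^ 2 := by
    intro n m
    rw [hlam]
    refine (hgap _).trans (mul_le_mul_of_nonneg_left ?_ hC0)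
    exact Finset.sum_le_sum fun u hu => pow_le_pow_left₀ (norm_nonneg _) (hcomm n m u hu) 2
  have hmain : ∀ n m, ‖T.ι (W n - lam n m • W m)‖
      ≤ Real.sqrt (s m) + Real.sqrt (C0 * ∑ u ∈ F0, (a u n + a (star u) m) ^ 2) := by
    intro n m
    have e : W n - lam n m • W m
        = W n * (1 - star (W m) * W m) + (W n * star (W m) - lam n m • 1) * W m := by
      rw [sub_mul, smul_mul_assoc, one_mul]
      noncomm_ring
    rw [e, map_add]
    refine (norm_add_le _ _).trans (add_le_add ?_ ?_)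
    · refine (T.mul_le _ _).trans ?_
      have h1 := T.norm_one_sub_sq (W m) (hW m)
      rw [← hs] at h1
      calc ‖W n‖ * ‖T.ι (1 - star (W m) * W m)‖ ≤ 1 * Real.sqrt (s m) :=
            mul_le_mul (hW n) (Real.le_sqrt_of_sq_le h1) (norm_nonneg _) zero_le_one
        _ = _ := one_mul _
    · refine (T.mul_le' _ _).trans ?_
      calc ‖T.ι (W n * star (W m) - lam n m • 1)‖ * ‖W m‖
          ≤ Real.sqrt (C0 * ∑ u ∈ F0, (a u n + a (star u) m) ^ 2) * 1 :=
            mul_le_mul (Real.le_sqrt_of_sq_le (hX n m)) (hW m) (norm_nonneg _)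
              (Real.sqrt_nonneg _)
        _ = _ := mul_one _
  -- the limit along an ultrafilter
  let U : Ultrafilter ℕ := Filter.hyperfilter ℕ
  have hU : (U : Filter ℕ) ≤ atTop := by
    rw [← Nat.cofinite_eq_atTop]
    exact Filter.hyperfilter_le_cofinite
  choose l hl hl1 using fun m => exists_ulimit_C U (fun n => lam n m) 1 (fun n => hlam1 n m)
  obtain ⟨ε, hε⟩ : ∃ ε : ℕ → ℝ, ∀ m, ε m = Real.sqrt (s m)
      + Real.sqrt (C0 * ∑ u ∈ F0, (a (star u) m) ^ 2) := ⟨_, fun _ => rfl⟩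
  have hε0 : Tendsto ε atTop (𝓝 0) := by
    have h1 : Tendsto (fun m => Real.sqrt (s m)) atTop (𝓝 (Real.sqrt 0)) :=
      (Real.continuous_sqrt.tendsto 0).comp hs0
    have h2 : Tendsto (fun m => C0 * ∑ u ∈ F0, (a (star u) m) ^ 2) atTop
        (𝓝 (C0 * ∑ u ∈ F0, (0 : ℝ) ^ 2)) := by
      refine Tendsto.const_mul C0 (tendsto_finsetSum _ fun u hu => ?_)
      exact (ha0 (star u) (by rw [star_star]; exact (hF0 u hu).2)
        (by rw [star_star]; exact (hF0 u hu).1)).pow 2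
    have h3 : C0 * ∑ u ∈ F0, (0 : ℝ) ^ 2 = 0 := by simp
    rw [h3] at h2
    have h4 := (Real.continuous_sqrt.tendsto 0).comp h2
    have h5 := h1.add h4
    rw [Real.sqrt_zero, add_zero] at h5
    exact h5.congr fun m => (hε m).symm
  have hlimn : ∀ m, Tendsto (fun n => Real.sqrt (s m)
      + Real.sqrt (C0 * ∑ u ∈ F0, (a u n + a (star u) m) ^ 2)) atTop (𝓝 (ε m)) := by
    intro m
    rw [hε]
    refine tendsto_const_nhds.add ?_
    refine (Real.continuous_sqrt.tendsto _).comp ?_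
    refine Tendsto.const_mul C0 (tendsto_finsetSum _ fun u hu => ?_)
    have h1 := ((ha0 u (hF0 u hu).1 (hF0 u hu).2).add_const (a (star u) m)).pow 2
    rwa [zero_add] at h1
  obtain ⟨V, hV⟩ : ∃ V : ℕ → A, ∀ m, V m = l m • W m := ⟨_, fun _ => rfl⟩
  have hV1 : ∀ m, ‖V m‖ ≤ 1 := by
    intro m
    rw [hV, norm_smul]
    calc ‖l m‖ * ‖W m‖ ≤ 1 * 1 := mul_le_mul (hl1 m) (hW m) (norm_nonneg _) zero_le_one
      _ = 1 := one_mul _
  have hlamV : ∀ m, Tendsto (fun n => T.ι (lam n m • W m)) U (𝓝 (T.ι (V m))) := by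
    intro m
    rw [hV]
    simp only [map_smul]
    exact (hl m).smul_const _
  have hVV : ∀ m m', ‖T.ι (V m) - T.ι (V m')‖ ≤ ε m + ε m' := by
    intro m m'
    have h1 : Tendsto (fun n => ‖T.ι (lam n m • W m) - T.ι (lam n m' • W m')‖) U
        (𝓝 ‖T.ι (V m) - T.ι (V m')‖) := ((hlamV m).sub (hlamV m')).norm
    have h2 := ((hlimn m).add (hlimn m')).mono_left hU
    refine le_of_tendsto_of_tendsto h1 h2 (Eventually.of_forall fun n => ?_)
    have e : T.ι (lam n m • W m) - T.ι (lam n m' • W m')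
        = T.ι (W n - lam n m' • W m') - T.ι (W n - lam n m • W m) := by
      rw [map_sub, map_sub]
      abel
    have h3 := hmain n m
    have h4 := hmain n m'
    change ‖T.ι (lam n m • W m) - T.ι (lam n m' • W m')‖
      ≤ Real.sqrt (s m) + Real.sqrt (C0 * ∑ u ∈ F0, (a u n + a (star u) m) ^ 2)
        + (Real.sqrt (s m') + Real.sqrt (C0 * ∑ u ∈ F0, (a u n + a (star u) m') ^ 2))
    rw [e]
    refine (norm_sub_le _ _).trans ?_
    linarith
  have hVn : ∀ m, 1 - ε m ≤ ‖T.ι (V m)‖ := by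
    intro m
    have h1 : Tendsto (fun n => ‖T.ι (W n)‖ - (Real.sqrt (s m)
        + Real.sqrt (C0 * ∑ u ∈ F0, (a u n + a (star u) m) ^ 2))) U (𝓝 (1 - ε m)) :=
      (hW1.sub (hlimn m)).mono_left hU
    refine le_of_tendsto_of_tendsto h1 (hlamV m).norm (Eventually.of_forall fun n => ?_)
    have h2 := hmain n m
    have h3 : ‖T.ι (W n)‖ ≤ ‖T.ι (W n - lam n m • W m)‖ + ‖T.ι (lam n m • W m)‖ := by
      rw [map_sub]
      have := norm_add_le (T.ι (W n) - T.ι (lam n m • W m)) (T.ι (lam n m • W m))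
      rwa [sub_add_cancel] at this
    change ‖T.ι (W n)‖ - (Real.sqrt (s m)
        + Real.sqrt (C0 * ∑ u ∈ F0, (a u n + a (star u) m) ^ 2)) ≤ ‖T.ι (lam n m • W m)‖
    linarith
  have hcau : CauchySeq fun m => T.ι (V m) := by
    rw [Metric.cauchySeq_iff]
    intro δ hδ
    obtain ⟨N, hN⟩ := (hε0.eventually (gt_mem_nhds (half_pos hδ))).exists_forall_of_atTop
    refine ⟨N, fun m hm m' hm' => ?_⟩
    rw [dist_eq_norm]
    have := hVV m m'
    have := hN m hm
    have := hN m' hm'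
    linarith
  obtain ⟨y, hy⟩ := T.complete 1 V hV1 hcau
  have hy1 : ‖T.ι y‖ = 1 := by
    refine le_antisymm ?_ ?_
    · exact le_of_tendsto hy.norm (Eventually.of_forall fun m => (T.norm_le _).trans (hV1 m))
    · have h1 : Tendsto (fun m => 1 - ε m) atTop (𝓝 (1 - 0)) := tendsto_const_nhds.sub hε0
      rw [sub_zero] at h1
      exact le_of_tendsto_of_tendsto h1 hy.norm (Eventually.of_forall hVn)
  have hyu : ∀ u : A, star u * u = 1 → u * star u = 1 → u * y = y * S.α g u := by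
    intro u hu1 hu2
    have hL : Tendsto (fun m => T.ι (u * V m)) atTop (𝓝 (T.ι (u * y))) := by
      rw [tendsto_iff_norm_sub_tendsto_zero] at hy ⊢
      refine hy.congr fun m => ?_
      rw [← map_sub, ← map_sub, ← mul_sub, T.norm_unitary_mul u hu1]
    have hR : Tendsto (fun m => T.ι (V m * S.α g u)) atTop (𝓝 (T.ι (y * S.α g u))) := by
      rw [tendsto_iff_norm_sub_tendsto_zero] at hy ⊢
      refine hy.congr fun m => ?_
      rw [← map_sub, ← map_sub, ← sub_mul, T.norm_mul_unitary _ (by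
        rw [← map_star, ← map_mul, hu2, map_one])]
    have h0 : Tendsto (fun m => T.ι (u * V m) - T.ι (V m * S.α g u)) atTop (𝓝 0) := by
      rw [tendsto_zero_iff_norm_tendsto_zero]
      refine squeeze_zero (fun m => norm_nonneg _) (fun m => ?_) (ha0 u hu1 hu2)
      have e : u * V m - V m * S.α g u = l m • (u * W m - W m * S.α g u) := by
        rw [hV, mul_smul_comm, smul_mul_assoc, smul_sub]
      rw [← map_sub, e, map_smul, norm_smul, ha]
      calc ‖l m‖ * ‖T.ι (u * W m - W m * S.α g u)‖ ≤ 1 * ‖T.ι (u * W m - W m * S.α g u)‖ :=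
            mul_le_mul_of_nonneg_right (hl1 m) (norm_nonneg _)
        _ = _ := one_mul _
    have h1 := tendsto_nhds_unique (hL.sub hR) h0
    exact T.inj (sub_eq_zero.1 h1)
  have hyx : ∀ x : A, x * y = y * S.α g x := by
    intro x
    have hx : x ∈ Submodule.span ℂ (unitary A : Set A) := by
      rw [CStarAlgebra.span_unitary]
      trivial
    induction hx using Submodule.span_induction with
    | mem u hu =>
      rw [SetLike.mem_coe, Unitary.mem_iff] at hu
      exact hyu u hu.1 hu.2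
    | zero => rw [zero_mul, map_zero, mul_zero]
    | add a b _ _ ha hb => rw [add_mul, ha, hb, map_add, mul_add]
    | smul c a _ ha => rw [smul_mul_assoc, ha, map_smul, mul_smul_comm]
  have hcen : ∀ p : A, (∀ u ∈ F0, u * p = p * u) → p = T.τ p • 1 := by
    intro p hp
    have h1 := hgap p
    have h2 : ∑ u ∈ F0, ‖T.ι (u * p - p * u)‖ ^ 2 = 0 := by
      refine Finset.sum_eq_zero fun u hu => ?_
      rw [hp u hu, sub_self, map_zero, norm_zero, zero_pow two_ne_zero]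
    rw [h2, mul_zero] at h1
    have h3 : ‖T.ι (p - T.τ p • 1)‖ = 0 := by
      have := sq_nonneg ‖T.ι (p - T.τ p • 1)‖
      exact pow_eq_zero_iff two_ne_zero |>.1 (le_antisymm h1 this)
    have h4 : p - T.τ p • 1 = 0 := T.inj (by rw [norm_eq_zero.1 h3, map_zero])
    exact sub_eq_zero.1 h4
  have hτ1 : T.τ (star y * y) = 1 := by
    rw [← T.inner_eq_τ, inner_self_eq_norm_sq_to_K, hy1]
    simp
  have hstar : ∀ x : A, S.α g x * star y = star y * x := by
    intro x
    have h1 := congrArg star (hyx (star x))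
    rw [star_mul, star_star, star_mul, map_star, star_star] at h1
    exact h1.symm
  refine ⟨y, ?_, ?_, hyx⟩
  · have h1 : ∀ x : A, S.α g x * (star y * y) = star y * y * S.α g x := by
      intro x
      rw [← mul_assoc, hstar, mul_assoc, hyx, ← mul_assoc]
    have h2 := hcen (star y * y) fun u _ => by
      have h3 := h1 (S.α g⁻¹ u)
      rwa [S.apply_inv] at h3
    rw [h2, hτ1, one_smul]
  · have h1 : ∀ x : A, x * (y * star y) = y * star y * x := by
      intro x
      rw [← mul_assoc, hyx, mul_assoc, hstar, mul_assoc]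
    have h2 := hcen (y * star y) fun u _ => h1 u
    rw [h2, T.τ_mul_comm, hτ1, one_smul]

/-- step 2: FAR -/
theorem TrAct.far [FirstCountableTopology G] [TopologicalSpace.SeparableSpace K] (F0 : Finset A)
    (C0 : ℝ) (hC0 : 0 ≤ C0) (hgap : T.Gap F0 C0)
    (hF0 : ∀ u ∈ F0, star u * u = 1 ∧ u * star u = 1) (hout : S.Outer) (L : Set G)
    (hL : IsCompact L) (h1L : (1 : G) ∉ L) :
    ∃ F : Finset A, IsUSet F ∧ F0 ⊆ F ∧ ∃ c : ℝ, 0 < c ∧ ∀ g ∈ L, ∀ z : A,
      ‖T.ι (S.Tg F g z)‖ ≤ (1 - c) * ‖T.ι z‖ := by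
  classical
  by_contra hcon
  push Not at hcon
  -- a countable `2`-norm dense set of unitaries
  obtain ⟨𝒰, h𝒰⟩ : ∃ 𝒰 : Set A, 𝒰 = {u | star u * u = 1 ∧ u * star u = 1} := ⟨_, rfl⟩
  have hsep : TopologicalSpace.IsSeparable (T.ι '' 𝒰) := TopologicalSpace.IsSeparable.of_separableSpace _
  obtain ⟨t, hts, htc, hst⟩ := hsep.exists_countable_dense_subset
  have h1𝒰 : (1 : A) ∈ 𝒰 := by rw [h𝒰]; simp
  have htn : t.Nonempty := by
    have h2 : T.ι 1 ∈ closure t := hst ⟨1, h1𝒰, rfl⟩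
    exact (closure_nonempty_iff).1 ⟨_, h2⟩
  obtain ⟨f, hf⟩ := htc.exists_eq_range htn
  have hf2 : ∀ n, ∃ u ∈ 𝒰, T.ι u = f n := fun n => by
    have : f n ∈ t := by rw [hf]; exact ⟨n, rfl⟩
    obtain ⟨u, hu, hu2⟩ := hts this
    exact ⟨u, hu, hu2⟩
  choose ud hud hudf using hf2
  have hdense : ∀ u ∈ 𝒰, ∀ ε : ℝ, 0 < ε → ∃ n, ‖T.ι (u - ud n)‖ < ε := by
    intro u hu ε hε
    have h2 : T.ι u ∈ closure t := hst ⟨u, hu, rfl⟩
    rw [Metric.mem_closure_iff] at h2
    obtain ⟨b, hb, hb2⟩ := h2 ε hε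
    rw [hf] at hb
    obtain ⟨n, rfl⟩ := hb
    refine ⟨n, ?_⟩
    rw [map_sub, hudf, ← dist_eq_norm]
    exact hb2
  -- the finite sets
  have hF : ∀ n : ℕ, ∃ F : Finset A, IsUSet F ∧ F0 ⊆ F ∧ ∀ m ≤ n, ud m ∈ F := by
    intro n
    obtain ⟨F, hF1, hF2⟩ := exists_uset (F0 ∪ (Finset.range (n + 1)).image ud) (by
      intro u hu
      simp only [Finset.mem_union, Finset.mem_image, Finset.mem_range] at hu
      rcases hu with hu | ⟨m, -, rfl⟩
      · exact hF0 u hu
      · have := hud m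
        rw [h𝒰] at this
        exact this)
    refine ⟨F, hF1, fun u hu => hF2 (Finset.mem_union_left _ hu), fun m hm => hF2 ?_⟩
    exact Finset.mem_union_right _ (Finset.mem_image.2 ⟨m, Finset.mem_range.2 (by omega), rfl⟩)
  choose F hFu hF0F hFud using hF
  -- the contractions
  have hseq : ∀ n : ℕ, ∃ (g : G) (w : A), g ∈ L ∧ ‖w‖ ≤ 1 ∧ 1 - 1 / ((n : ℝ) + 1) ≤ ‖T.ι w‖ ∧
      ∀ u ∈ F n, ‖T.ι (u * w - w * S.α g u)‖ ≤ 1 / ((n : ℝ) + 1) := by
    intro n
    have hη : 0 < 1 / ((n : ℝ) + 1) := by positivity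
    obtain ⟨d, hd, hw⟩ := T.exists_contraction F0 C0 hC0 hgap hF0 hη
    have hcard : (0 : ℝ) < (F n).card := Nat.cast_pos.2 (Finset.card_pos.2 ⟨1, (hFu n).one_mem⟩)
    obtain ⟨g, hg, z, hz⟩ := hcon (F n) (hFu n) (hF0F n) (d ^ 2 / (4 * (F n).card)) (by positivity)
    have hz0 : z ≠ 0 := by
      rintro rfl
      have e : S.Tg (F n) g (0 : A) = 0 := by
        unfold TrAct.Tg
        simp
      rw [e, map_zero, norm_zero, mul_zero] at hz
      exact lt_irrefl _ hz
    have hzn : 0 < ‖T.ι z‖ := norm_pos_iff.2 fun h => hz0 (T.inj (by rw [h, map_zero]))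
    obtain ⟨r, hr⟩ : ∃ r : ℂ, r = ((‖T.ι z‖⁻¹ : ℝ) : ℂ) := ⟨_, rfl⟩
    have hrn : ‖r‖ = ‖T.ι z‖⁻¹ := by
      rw [hr, Complex.norm_real, Real.norm_of_nonneg (by positivity)]
    have hr0 : 0 < ‖r‖ := by rw [hrn]; positivity
    obtain ⟨y, hy⟩ : ∃ y, y = r • z := ⟨_, rfl⟩
    have hy1 : ‖T.ι y‖ = 1 := by
      rw [hy, map_smul, norm_smul, hrn]
      exact inv_mul_cancel₀ hzn.ne'
    have hTy : S.Tg (F n) g y = r • S.Tg (F n) g z := by
      unfold TrAct.Tg
      rw [hy, smul_comm]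
      congr 1
      rw [Finset.smul_sum]
      refine Finset.sum_congr rfl fun u _ => ?_
      rw [mul_smul_comm, smul_mul_assoc]
    have hTy1 : 1 - d ^ 2 / (4 * (F n).card) ≤ ‖T.ι (S.Tg (F n) g y)‖ := by
      rw [hTy, map_smul, norm_smul]
      have h1 := mul_le_mul_of_nonneg_left hz.le hr0.le
      have h2 : ‖r‖ * ((1 - d ^ 2 / (4 * (F n).card)) * ‖T.ι z‖)
          = 1 - d ^ 2 / (4 * (F n).card) := by
        rw [hrn]
        field_simp
      rwa [h2] at h1
    have hint : ∀ u ∈ F n, ‖T.ι (u * y - y * S.α g u)‖ ≤ d := by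
      intro u hu
      have h1 := S.almost_of_Tg (hFu n) g y hy1 (by positivity) hTy1 hu
      have h2 : 4 * (d ^ 2 / (4 * (F n).card) * (F n).card) = d ^ 2 := by field_simp
      rw [h2] at h1
      exact (pow_le_pow_iff_left₀ (norm_nonneg _) hd.le two_ne_zero).1 h1
    obtain ⟨w, t', hw1, -, -, hw2, hwi⟩ := hw (F n) (hF0F n) (hFu n).unit (S.α g)
      (fun u hu => (S.α_unit (hFu n) g hu).2) y hy1 hint
    exact ⟨g, w, hg, hw1, hw2, hwi⟩
  choose gs ws hgs hws1 hws2 hwsi using hseq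
  obtain ⟨g, hgL, φ, hφ, hgφ⟩ := hL.tendsto_subseq hgs
  have hφn : ∀ n, n ≤ φ n := hφ.id_le
  have hinv : Tendsto (fun n : ℕ => 1 / ((φ n : ℝ) + 1)) atTop (𝓝 0) :=
    tendsto_one_div_add_atTop_nhds_zero_nat.comp hφ.tendsto_atTop
  have hg1 : g ≠ 1 := fun h => h1L (h ▸ hgL)
  refine hout g hg1 (S.exists_intertwiner F0 C0 hC0 hgap hF0 g (fun n => ws (φ n))
    (fun n => hws1 _) ?_ ?_)
  · have h1 : Tendsto (fun n : ℕ => 1 - 1 / ((φ n : ℝ) + 1)) atTop (𝓝 (1 - 0)) :=
      tendsto_const_nhds.sub hinv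
    rw [sub_zero] at h1
    exact tendsto_of_tendsto_of_tendsto_of_le_of_le h1 tendsto_const_nhds (fun n => hws2 _)
      fun n => (T.norm_le _).trans (hws1 _)
  · intro u hu1 hu2
    rw [Metric.tendsto_atTop]
    intro ε hε
    have hu𝒰 : u ∈ 𝒰 := by rw [h𝒰]; exact ⟨hu1, hu2⟩
    obtain ⟨m, hm⟩ := hdense u hu𝒰 (ε / 4) (by positivity)
    have h2 : Tendsto (fun n => ‖T.ι (S.α (gs (φ n)) (ud m)) - T.ι (S.α g (ud m))‖) atTop
        (𝓝 0) := by
      have h3 := ((S.cont (ud m)).tendsto g).comp hgφ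
      exact tendsto_iff_norm_sub_tendsto_zero.1 h3
    obtain ⟨N1, hN1⟩ := (h2.eventually (gt_mem_nhds (by positivity : (0 : ℝ) < ε / 4))).exists_forall_of_atTop
    obtain ⟨N2, hN2⟩ := (hinv.eventually (gt_mem_nhds (by positivity : (0 : ℝ) < ε / 4))).exists_forall_of_atTop
    refine ⟨max m (max N1 N2), fun n hn => ?_⟩
    have hnm : m ≤ φ n := (le_max_left _ _).trans (hn.trans (hφn n))
    have hn1 : N1 ≤ n := (le_max_left _ _).trans ((le_max_right _ _).trans hn)
    have hn2 : N2 ≤ n := (le_max_right _ _).trans ((le_max_right _ _).trans hn)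
    rw [Real.dist_eq, sub_zero, abs_of_nonneg (norm_nonneg _)]
    have e : u * ws (φ n) - ws (φ n) * S.α g u
        = (u - ud m) * ws (φ n) + (ud m * ws (φ n) - ws (φ n) * S.α (gs (φ n)) (ud m))
          + ws (φ n) * (S.α (gs (φ n)) (ud m) - S.α g (ud m))
          - ws (φ n) * S.α g (u - ud m) := by
      rw [map_sub]
      noncomm_ring
    have b1 : ‖T.ι ((u - ud m) * ws (φ n))‖ < ε / 4 := by
      refine lt_of_le_of_lt (T.mul_le' _ _) ?_
      calc ‖T.ι (u - ud m)‖ * ‖ws (φ n)‖ ≤ ‖T.ι (u - ud m)‖ * 1 :=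
            mul_le_mul_of_nonneg_left (hws1 _) (norm_nonneg _)
        _ < ε / 4 := by rw [mul_one]; exact hm
    have b2 : ‖T.ι (ud m * ws (φ n) - ws (φ n) * S.α (gs (φ n)) (ud m))‖ < ε / 4 :=
      (hwsi (φ n) (ud m) (hFud (φ n) m hnm)).trans_lt (hN2 n hn2)
    have b3 : ‖T.ι (ws (φ n) * (S.α (gs (φ n)) (ud m) - S.α g (ud m)))‖ < ε / 4 := by
      refine lt_of_le_of_lt (T.mul_le _ _) ?_
      rw [map_sub]
      calc ‖ws (φ n)‖ * ‖T.ι (S.α (gs (φ n)) (ud m)) - T.ι (S.α g (ud m))‖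
          ≤ 1 * ‖T.ι (S.α (gs (φ n)) (ud m)) - T.ι (S.α g (ud m))‖ :=
            mul_le_mul_of_nonneg_right (hws1 _) (norm_nonneg _)
        _ < ε / 4 := by rw [one_mul]; exact hN1 n hn1
    have b4 : ‖T.ι (ws (φ n) * S.α g (u - ud m))‖ < ε / 4 := by
      refine lt_of_le_of_lt (T.mul_le _ _) ?_
      rw [S.norm_map]
      calc ‖ws (φ n)‖ * ‖T.ι (u - ud m)‖ ≤ 1 * ‖T.ι (u - ud m)‖ :=
            mul_le_mul_of_nonneg_right (hws1 _) (norm_nonneg _)
        _ < ε / 4 := by rw [one_mul]; exact hm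
    rw [e, map_sub, map_add, map_add]
    refine lt_of_le_of_lt (norm_sub_le _ _) ?_
    refine lt_of_le_of_lt (add_le_add_left ((norm_add_le _ _).trans
      (add_le_add_left (norm_add_le _ _) _)) _) ?_
    linarith

end

end Pool.Agent.AbCoc
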