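import Pool.Agent.Lib_MP_418a80_full.Unit
import Pool.Agent.Lib_MP_418a80_hyp.HTrans

/-!
# Full II₁ factors: outerness and the spectral gap in the concrete picture
-/

set_option autoImplicit false
set_option linter.unusedVariables false
set_option linter.unusedSectionVars false

open Topology Filter MeasureTheory
open scoped ENNReal

namespace Pool.Agent.AbCoc

universe u v w

section
variable {A : Type u} [CStarAlgebra A]
  {K : Type v} [NormedAddCommGroup K] [InnerProductSpace ℂ K] [CompleteSpace K]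
variable {G : Type w} [Group G] [TopologicalSpace G] [IsTopologicalGroup G]
  [SecondCountableTopology G] [LocallyCompactSpace G] [MeasurableSpace G] [BorelSpace G]
  (μ : Measure G) [μ.IsHaarMeasure] {T : TrAlg A K} (S : TrAct G T)

theorem TrAct.lam_pi (g : G) (x : A) :
    (lam μ K).U g * S.pi μ x = S.pi μ (S.α g x) * (lam μ K).U g := by
  ext1 ξ
  apply Lp.ext
  filter_upwards [lam_ae μ g (S.pi μ x ξ), ae_translate μ g⁻¹ (S.pi_ae μ x ξ),
    S.pi_ae μ (S.α g x) ((lam μ K).U g ξ), lam_ae μ g ξ] with s h1 h2 h3 h4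
  change ((lam μ K).U g (S.pi μ x ξ)) s = (S.pi μ (S.α g x) ((lam μ K).U g ξ)) s
  rw [h1, h2, h3, h4, ← S.mul, mul_inv_rev, inv_inv]

/-- strict outerness (relative to any set) implies that `α_g` is outer for every `g ≠ 1` -/
theorem TrAct.outer_of_SO [T2Space G] (P : Set A) (hSO : S.SO μ P) : S.Outer := by
  rintro g hg ⟨w, hw1, hw2, hwx⟩
  obtain ⟨T0, hT0⟩ : ∃ T0, T0 = S.pi μ w * (lam μ K).U g := ⟨_, rfl⟩
  have hmem : T0 ∈ Set.centralizer (Set.centralizer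
      (Set.range (S.pi μ) ∪ Set.range (lam μ K).U)) := by
    rw [hT0]
    exact Set.mul_mem_centralizer
      (Set.subset_centralizer_centralizer (Or.inl ⟨w, rfl⟩))
      (Set.subset_centralizer_centralizer (Or.inr ⟨g, rfl⟩))
  obtain ⟨c, hc⟩ := hSO T0 hmem fun x _ => by
    rw [hT0, mul_assoc, S.lam_pi μ, ← mul_assoc, ← S.pi_mul μ, ← hwx, S.pi_mul μ, mul_assoc]
  -- `T0` is isometric
  have hiso : ∀ ξ, ‖T0 ξ‖ = ‖ξ‖ := by
    intro ξ
    have h1 : ∀ ζ : Lp K 2 μ, ‖S.pi μ w ζ‖ = ‖ζ‖ := by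
      intro ζ
      have h2 : inner ℂ (S.pi μ w ζ) (S.pi μ w ζ) = inner ℂ ζ ζ := by
        have h3 : (S.pi μ w).adjoint (S.pi μ w ζ) = ζ := by
          rw [← ContinuousLinearMap.star_eq_adjoint, ← S.pi_star μ]
          have h4 : S.pi μ (star w) * S.pi μ w = 1 := by
            rw [← S.pi_mul μ, hw1, S.pi_one μ]
          exact congrArg (fun X : Lp K 2 μ →L[ℂ] Lp K 2 μ => X ζ) h4
        rw [← ContinuousLinearMap.adjoint_inner_right, h3]
      rw [inner_self_eq_norm_sq_to_K, inner_self_eq_norm_sq_to_K] at h2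
      have h5 : ‖S.pi μ w ζ‖ ^ 2 = ‖ζ‖ ^ 2 := by exact_mod_cast h2
      exact (pow_left_inj₀ (norm_nonneg _) (norm_nonneg _) two_ne_zero).1 h5
    rw [hT0]
    change ‖S.pi μ w ((lam μ K).U g ξ)‖ = ‖ξ‖
    rw [h1]
    have h2 := (lam μ K).inner_map g ξ ξ
    rw [inner_self_eq_norm_sq_to_K, inner_self_eq_norm_sq_to_K] at h2
    have h5 : ‖(lam μ K).U g ξ‖ ^ 2 = ‖ξ‖ ^ 2 := by exact_mod_cast h2
    exact (pow_left_inj₀ (norm_nonneg _) (norm_nonneg _) two_ne_zero).1 h5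
  -- a small open set
  obtain ⟨V, hVo, hV1, hVg, hVf⟩ : ∃ V : Set G, IsOpen V ∧ (1 : G) ∈ V ∧
      (∀ a ∈ V, ∀ b ∈ V, a * b⁻¹ ≠ g) ∧ μ V ≠ ∞ := by
    have hcont : Continuous fun p : G × G => p.1 * p.2⁻¹ := continuous_fst.mul continuous_snd.inv
    have hop : IsOpen {p : G × G | p.1 * p.2⁻¹ ≠ g} := isOpen_ne.preimage hcont
    have h1 : ((1 : G), (1 : G)) ∈ {p : G × G | p.1 * p.2⁻¹ ≠ g} := by
      change (1 : G) * 1⁻¹ ≠ g
      rw [inv_one, mul_one]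
      exact Ne.symm hg
    obtain ⟨V1, V2, hV1, hV2, h1V, h2V, hsub⟩ := isOpen_prod_iff.1 hop 1 1 h1
    obtain ⟨C, hC, hC1⟩ := exists_compact_mem_nhds (1 : G)
    refine ⟨V1 ∩ V2 ∩ interior C, (hV1.inter hV2).inter isOpen_interior,
      ⟨⟨h1V, h2V⟩, mem_interior_iff_mem_nhds.2 hC1⟩, ?_, ?_⟩
    · intro a ha b hb
      exact hsub (Set.mk_mem_prod ha.1.1 hb.1.2)
    · exact ne_top_of_le_ne_top hC.measure_lt_top.ne
        (measure_mono (Set.inter_subset_right.trans interior_subset))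
  have hVm : MeasurableSet V := hVo.measurableSet
  have hVpos : μ V ≠ 0 := (hVo.measure_pos μ ⟨1, hV1⟩).ne'
  obtain ⟨ξ, hξ⟩ : ∃ ξ : Lp K 2 μ, ξ = indicatorConstLp 2 hVm hVf (T.ι 1) := ⟨_, rfl⟩
  have hξae : ξ =ᵐ[μ] V.indicator fun _ => T.ι 1 := by rw [hξ]; exact indicatorConstLp_coeFn
  have hcι : c • T.ι 1 = 0 := by
    by_contra hne
    have h1 : ∀ᵐ s ∂μ, s ∉ V := by
      have e : T0 ξ = c • ξ := by rw [hc]; rfl
      have h2 : (T0 ξ : Lp K 2 μ) =ᵐ[μ] fun s => T.Lm (S.α s⁻¹ w) (ξ (g⁻¹ * s)) := by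
        rw [hT0]
        filter_upwards [S.pi_ae μ w ((lam μ K).U g ξ), lam_ae μ g ξ] with s h3 h4
        change (S.pi μ w ((lam μ K).U g ξ)) s = _
        rw [h3, h4]
      rw [e] at h2
      filter_upwards [h2, Lp.coeFn_smul c ξ, hξae, ae_translate μ g⁻¹ hξae]
        with s h3 h4 h5 h6 hs
      rw [h4, Pi.smul_apply, h5, h6, Set.indicator_of_mem hs,
        Set.indicator_of_notMem (fun h => hVg s hs _ h (by
          rw [mul_inv_rev, inv_inv, mul_inv_cancel_left]))] at h3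
      rw [map_zero] at h3
      exact hne h3
    exact hVpos (measure_eq_zero_iff_ae_notMem.2 h1)
  have hι1 : T.ι 1 ≠ 0 := fun h => by
    have := T.norm_one
    rw [h, norm_zero] at this
    exact zero_ne_one this
  have hc0 : c = 0 := (smul_eq_zero.1 hcι).resolve_right hι1
  have hξ0 : ‖ξ‖ = 0 := by
    rw [← hiso ξ, hc, hc0, zero_smul]
    exact norm_zero
  have hξn : ‖ξ‖ ≠ 0 := by
    rw [hξ, norm_indicatorConstLp (by norm_num) (by norm_num), T.norm_one, one_mul]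
    refine (Real.rpow_pos_of_pos ?_ _).ne'
    exact ENNReal.toReal_pos hVpos hVf
  exact hξn hξ0

end

section
variable {H : Type u} [NormedAddCommGroup H] [InnerProductSpace ℂ H] [CompleteSpace H]

/-- The square of the `2`-norm, `∑ ‖x ξ_n‖²`. -/
noncomputable def twoNormSq (ξ : ℕ → H) (x : H →L[ℂ] H) : ℝ := ∑' n, ‖x (ξ n)‖ ^ 2

/-- `M` has a spectral gap: for a faithful normal tracial state `τ = ∑ ⟪ξ n, · (ξ n)⟫`, a finite
set `F` of unitaries of `M` and a constant `C` one has `‖x - τ(x)‖₂² ≤ C ∑ ‖u x - x u‖₂²` for every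
`x` in `M`, the sum over `u` in `F`. -/
def HasSpectralGap (M : VonNeumannAlgebra H) : Prop :=
  ∃ ξ : ℕ → H, IsTracialFamily M ξ ∧ ∃ (F : Finset (H →L[ℂ] H)) (C : ℝ),
    (∀ u ∈ F, u ∈ M ∧ star u * u = 1 ∧ u * star u = 1) ∧
    ∀ x ∈ M, twoNormSq ξ (x - (∑' n, inner ℂ (ξ n) (x (ξ n))) • (1 : H →L[ℂ] H))
      ≤ C * ∑ u ∈ F, twoNormSq ξ (u * x - x * u)

theorem trAlgOf_norm_sq (M : VonNeumannAlgebra H) (ξ : ℕ → H) (h : IsTracialFamily M ξ)
    (x : Alg M) : ‖(trAlgOf M ξ h).ι x‖ ^ 2 = twoNormSq ξ (x : H →L[ℂ] H) := by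
  have h1 : HasSum (fun n => ‖(x : H →L[ℂ] H) (ξ n)‖ ^ 2) (‖(trAlgOf M ξ h).ι x‖ ^ 2) :=
    lp2_hasSum (((trAlgOf M ξ h).ι x : L2 M ξ h) : lp (fun _ : ℕ => H) 2)
  exact h1.tsum_eq.symm

theorem trAlgOf_τ (M : VonNeumannAlgebra H) (ξ : ℕ → H) (h : IsTracialFamily M ξ)
    (x : Alg M) : (trAlgOf M ξ h).τ x = ∑' n, inner ℂ (ξ n) ((x : H →L[ℂ] H) (ξ n)) := by
  have h1 := lp.inner_eq_tsum (𝕜 := ℂ)
    (((trAlgOf M ξ h).ι 1 : L2 M ξ h) : lp (fun _ : ℕ => H) 2)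
    (((trAlgOf M ξ h).ι x : L2 M ξ h) : lp (fun _ : ℕ => H) 2)
  exact h1

/-- the spectral gap in the tracial algebra -/
theorem exists_gap (M : VonNeumannAlgebra H) (hgap : HasSpectralGap M) :
    ∃ (ξ : ℕ → H) (h : IsTracialFamily M ξ) (F0 : Finset (Alg M)) (C0 : ℝ), 0 ≤ C0 ∧
      (∀ u ∈ F0, star u * u = 1 ∧ u * star u = 1) ∧ (trAlgOf M ξ h).Gap F0 C0 := by
  classical
  obtain ⟨ξ, h, F, C, hF, hgap⟩ := hgap
  obtain ⟨F0, hF0⟩ : ∃ F0 : Finset (Alg M), F0 = F.attach.image fun u => ⟨u.1, (hF u.1 u.2).1⟩ :=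
    ⟨_, rfl⟩
  refine ⟨ξ, h, F0, max C 0, le_max_right _ _, ?_, ?_⟩
  · intro u hu
    rw [hF0, Finset.mem_image] at hu
    obtain ⟨v, -, rfl⟩ := hu
    exact ⟨Subtype.ext (hF v.1 v.2).2.1, Subtype.ext (hF v.1 v.2).2.2⟩
  · intro x
    have h1 := hgap (x : H →L[ℂ] H) x.2
    have h2 : ‖(trAlgOf M ξ h).ι (x - (trAlgOf M ξ h).τ x • 1)‖ ^ 2
        = twoNormSq ξ ((x : H →L[ℂ] H)
          - (∑' n, inner ℂ (ξ n) ((x : H →L[ℂ] H) (ξ n))) • (1 : H →L[ℂ] H)) := by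
      rw [trAlgOf_norm_sq, trAlgOf_τ]
      rfl
    have h3 : ∑ u ∈ F0, ‖(trAlgOf M ξ h).ι (u * x - x * u)‖ ^ 2
        = ∑ u ∈ F, twoNormSq ξ (u * (x : H →L[ℂ] H) - (x : H →L[ℂ] H) * u) := by
      rw [hF0, Finset.sum_image (by
        intro a _ b _ hab
        exact Subtype.ext (congrArg (fun y : Alg M => (y : H →L[ℂ] H)) hab)),
        ← Finset.sum_attach F]
      refine Finset.sum_congr rfl fun u _ => ?_
      rw [trAlgOf_norm_sq]
      rfl
    rw [h2, h3]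
    refine h1.trans (mul_le_mul_of_nonneg_right (le_max_left _ _) ?_)
    exact Finset.sum_nonneg fun u _ => tsum_nonneg fun n => by positivity

end

section
variable {H : Type u} [NormedAddCommGroup H] [InnerProductSpace ℂ H] [CompleteSpace H]
variable {G : Type v} [Group G] [TopologicalSpace G] [IsTopologicalGroup G]
  [SecondCountableTopology G] [LocallyCompactSpace G] [T2Space G]
  [MeasurableSpace G] [BorelSpace G] (μ : Measure G) [μ.IsHaarMeasure]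
  {M : VonNeumannAlgebra H} {α : G → (H →L[ℂ] H) → (H →L[ℂ] H)}

/-- a strictly outer action is pointwise outer -/
theorem outer_of_strictlyOuter (ξ : ℕ → H) (h : IsTracialFamily M ξ)
    (hfac : ∀ x ∈ M, (∀ y ∈ M, x * y = y * x) → ∃ c : ℂ, x = c • (1 : H →L[ℂ] H))
    (hα : IsAction M α) (hso : IsStrictlyOuter μ M α) : (actOf ξ h hfac hα).Outer :=
  (actOf ξ h hfac hα).outer_of_SO μ _ (so_of_strictlyOuterOn μ ξ h hfac hα
    (M : Set (H →L[ℂ] H)) Set.Subset.rfl ((isStrictlyOuterOn_iff μ M α).2 hso))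

end

end Pool.Agent.AbCoc
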