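import Pool.Agent.Lib_MP_418a80_hyp.HC0

/-!
# Full II₁ factors, step 1: unitarisation of almost intertwining vectors
-/

set_option autoImplicit false
set_option linter.unusedVariables false
set_option linter.unusedSectionVars false

open Topology Filter

namespace Pool.Agent.AbCoc

universe u v w

variable {A : Type u} [CStarAlgebra A] {K : Type v} [NormedAddCommGroup K]
  [InnerProductSpace ℂ K]

/-- the averaging operator of the bimodule of `α_g`, for a finite set of unitaries -/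
noncomputable def TrAct.Tg {G : Type w} [Group G] [TopologicalSpace G] {T : TrAlg A K}
    (S : TrAct G T) (F : Finset A) (g : G) (z : A) : A :=
  (F.card : ℂ)⁻¹ • ∑ u ∈ F, star u * z * S.α g u

/-- a finite symmetric set of unitaries containing `1` -/
structure IsUSet (F : Finset A) : Prop where
  unit : ∀ u ∈ F, star u * u = 1 ∧ u * star u = 1
  star_mem : ∀ u ∈ F, star u ∈ F
  one_mem : (1 : A) ∈ F

/-- the spectral gap with respect to a finite set of unitaries -/
def TrAlg.Gap (T : TrAlg A K) (F0 : Finset A) (C0 : ℝ) : Prop :=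
  ∀ x : A, ‖T.ι (x - T.τ x • 1)‖ ^ 2 ≤ C0 * ∑ u ∈ F0, ‖T.ι (u * x - x * u)‖ ^ 2

/-- every `α_g`, `g ≠ 1`, is outer -/
def TrAct.Outer {G : Type w} [Group G] [TopologicalSpace G] {T : TrAlg A K}
    (S : TrAct G T) : Prop :=
  ∀ g : G, g ≠ 1 → ¬ ∃ w : A, star w * w = 1 ∧ w * star w = 1 ∧ ∀ x, x * w = w * S.α g x

theorem TrAlg.norm_τ_le_two (T : TrAlg A K) (x : A) : ‖T.τ x‖ ≤ ‖T.ι x‖ := by
  have h := norm_inner_le_norm (𝕜 := ℂ) (T.ι 1) (T.ι x)
  rwa [T.norm_one, one_mul] at h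

theorem TrAlg.norm_τ_mul_two (T : TrAlg A K) (x y : A) : ‖T.τ (x * y)‖ ≤ ‖T.ι x‖ * ‖T.ι y‖ := by
  have h := norm_inner_le_norm (𝕜 := ℂ) (T.ι (star x)) (T.ι y)
  rw [T.inner_eq_τ, star_star, T.norm_star] at h
  exact h

/-- the Powers-Stoermer step: if `u z` is close to `z v` then `(z z*)^{1/2}` almost commutes
with `u` -/
theorem TrAlg.abs_comm (T : TrAlg A K) (z u v : A) (hu : star u * u = 1) (hu' : u * star u = 1)
    (hv : v * star v = 1) {d : ℝ} (hd : ‖T.ι (u * z - z * v)‖ ≤ d) :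
    ‖T.ι (u * csqrt (z * star z) - csqrt (z * star z) * u)‖ ^ 2 ≤ 2 * d * ‖T.ι z‖ := by
  obtain ⟨h, hh⟩ : ∃ h, h = csqrt (z * star z) := ⟨_, rfl⟩
  have hz : PosE (z * star z) := ⟨star z, by rw [star_star]⟩
  have hhp : PosE h := by rw [hh]; exact posE_csqrt _
  have hsq : h * h = z * star z := by rw [hh]; exact csqrt_mul_self hz
  rw [← hh]
  have hpu : PosE (u * h * star u) := by
    obtain ⟨y, hy⟩ := hhp
    exact ⟨y * star u, by rw [hy, star_mul, star_star]; noncomm_ring⟩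
  have hd0 : 0 ≤ d := (norm_nonneg _).trans hd
  have hps := T.powers_stormer' hpu hhp (C := 2 * d * ‖T.ι z‖) (fun y hy => by
    have e1 : u * h * star u * (u * h * star u) = (u * z) * star (u * z) := by
      rw [star_mul]
      calc u * h * star u * (u * h * star u) = u * h * (star u * u) * h * star u := by noncomm_ring
        _ = u * (h * h) * star u := by rw [hu]; noncomm_ring
        _ = _ := by rw [hsq]; noncomm_ring
    have e2 : h * h = (z * v) * star (z * v) := by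
      rw [hsq, star_mul]
      calc z * star z = z * (v * star v) * star z := by rw [hv]; noncomm_ring
        _ = _ := by noncomm_ring
    have e3 : (u * h * star u * (u * h * star u) - h * h) * y
        = (u * z - z * v) * (star (u * z) * y) + z * v * (star (u * z - z * v) * y) := by
      rw [e1, e2, star_sub]
      noncomm_ring
    have h1 : ‖T.ι (u * z)‖ = ‖T.ι z‖ := T.norm_unitary_mul u hu z
    have h2 : ‖T.ι (z * v)‖ = ‖T.ι z‖ := T.norm_mul_unitary v hv z
    have h3 : ‖T.τ ((u * z - z * v) * (star (u * z) * y))‖ ≤ d * ‖T.ι z‖ := by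
      refine (T.norm_τ_mul_two _ _).trans ?_
      refine mul_le_mul hd ?_ (norm_nonneg _) hd0
      refine (T.mul_le' _ _).trans ?_
      rw [T.norm_star, h1]
      calc ‖T.ι z‖ * ‖y‖ ≤ ‖T.ι z‖ * 1 := mul_le_mul_of_nonneg_left hy (norm_nonneg _)
        _ = _ := mul_one _
    have h4 : ‖T.τ (z * v * (star (u * z - z * v) * y))‖ ≤ ‖T.ι z‖ * d := by
      refine (T.norm_τ_mul_two _ _).trans ?_
      rw [h2]
      refine mul_le_mul_of_nonneg_left ?_ (norm_nonneg _)
      refine (T.mul_le' _ _).trans ?_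
      rw [T.norm_star]
      calc ‖T.ι (u * z - z * v)‖ * ‖y‖ ≤ d * 1 := mul_le_mul hd hy (norm_nonneg _) hd0
        _ = _ := mul_one _
    rw [e3, T.τ_add]
    refine (norm_add_le _ _).trans ((add_le_add h3 h4).trans ?_)
    linarith)
  have e : ‖T.ι (u * h - h * u)‖ = ‖T.ι (u * h * star u - h)‖ := by
    rw [← T.norm_mul_unitary (star u) (by rw [star_star]; exact hu) (u * h - h * u)]
    congr 2
    rw [sub_mul]
    congr 1
    rw [mul_assoc, hu', mul_one]
  rw [e]
  exact hps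

/-- step 1: an almost intertwining vector is close to a multiple of a contraction -/
theorem TrAlg.unitarise (T : TrAlg A K) (F0 : Finset A) (C0 : ℝ) (hC0 : 0 ≤ C0)
    (hgap : T.Gap F0 C0) (hF0 : ∀ u ∈ F0, star u * u = 1 ∧ u * star u = 1) (z : A)
    (hz : ‖T.ι z‖ = 1) (v : A → A) (hv : ∀ u ∈ F0, v u * star (v u) = 1) {d : ℝ}
    (hd : ∀ u ∈ F0, ‖T.ι (u * z - z * v u)‖ ≤ d) {ε : ℝ} (hε : 0 < ε) :
    ∃ (w : A) (t : ℂ), ‖w‖ ≤ 1 ∧ ‖t‖ ≤ 1 ∧
      ‖T.ι (z - t • w)‖ ≤ ε + Real.sqrt (C0 * (F0.card * (2 * d))) := by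
  obtain ⟨h, hh⟩ : ∃ h, h = csqrt (z * star z) := ⟨_, rfl⟩
  have hzp : PosE (z * star z) := ⟨star z, by rw [star_star]⟩
  have hhp : PosE h := by rw [hh]; exact posE_csqrt _
  have hsq : h * h = z * star z := by rw [hh]; exact csqrt_mul_self hzp
  have hhs : star h = h := hhp.star_eq
  obtain ⟨c, hcs, hcc, hcn, hce⟩ := exists_resolvent hhp hε
  have hhn : ‖T.ι h‖ = 1 := by
    have h1 : ‖T.ι h‖ ^ 2 = 1 ^ 2 := by
      rw [T.norm_sq, hhs, hsq, T.τ_mul_comm, ← T.norm_sq, hz]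
    exact (pow_left_inj₀ (norm_nonneg _) zero_le_one two_ne_zero).1 h1
  have hw : ‖c * z‖ ≤ 1 := by
    have h1 : ‖c * z‖ ^ 2 = ‖c * h‖ ^ 2 := by
      rw [pow_two, pow_two, ← CStarRing.norm_self_mul_star, ← CStarRing.norm_self_mul_star]
      congr 1
      rw [star_mul, star_mul, hhs, hcs]
      calc c * z * (star z * c) = c * (z * star z) * c := by noncomm_ring
        _ = _ := by rw [← hsq]; noncomm_ring
    have h2 : ‖c * z‖ = ‖c * h‖ := (pow_left_inj₀ (norm_nonneg _) (norm_nonneg _) two_ne_zero).1 h1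
    rw [h2]; exact hcn
  have hzw : ‖z - h * (c * z)‖ ≤ ε := by
    have h1 : ‖z - h * (c * z)‖ ^ 2 = ‖h - c * (h * h)‖ ^ 2 := by
      rw [pow_two, pow_two, ← CStarRing.norm_self_mul_star, ← CStarRing.norm_self_mul_star]
      congr 1
      have e1 : z - h * (c * z) = (1 - h * c) * z := by noncomm_ring
      have e2 : h - c * (h * h) = (1 - h * c) * h := by
        calc h - c * (h * h) = h - (c * h) * h := by noncomm_ring
          _ = h - (h * c) * h := by rw [hcc]
          _ = _ := by noncomm_ring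
      rw [e1, e2, star_mul, star_mul, hhs]
      calc (1 - h * c) * z * (star z * star (1 - h * c))
          = (1 - h * c) * (z * star z) * star (1 - h * c) := by noncomm_ring
        _ = _ := by rw [← hsq]; noncomm_ring
    have h2 : ‖z - h * (c * z)‖ = ‖h - c * (h * h)‖ :=
      (pow_left_inj₀ (norm_nonneg _) (norm_nonneg _) two_ne_zero).1 h1
    rw [h2]; exact hce
  refine ⟨c * z, T.τ h, hw, (T.norm_τ_le_two h).trans hhn.le, ?_⟩
  have hcomm : ∀ u ∈ F0, ‖T.ι (u * h - h * u)‖ ^ 2 ≤ 2 * d := by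
    intro u hu
    have h1 := T.abs_comm z u (v u) (hF0 u hu).1 (hF0 u hu).2 (hv u hu) (hd u hu)
    rwa [hz, mul_one, ← hh] at h1
  have h1 : ‖T.ι (h - T.τ h • 1)‖ ^ 2 ≤ C0 * (F0.card * (2 * d)) := by
    refine (hgap h).trans (mul_le_mul_of_nonneg_left ?_ hC0)
    refine (Finset.sum_le_card_nsmul F0 _ (2 * d) hcomm).trans ?_
    rw [nsmul_eq_mul]
  have h2 : ‖T.ι (h - T.τ h • 1)‖ ≤ Real.sqrt (C0 * (F0.card * (2 * d))) :=
    Real.le_sqrt_of_sq_le h1
  have e : z - T.τ h • (c * z) = (z - h * (c * z)) + (h - T.τ h • 1) * (c * z) := by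
    rw [sub_mul, smul_mul_assoc, one_mul]
    abel
  rw [e, map_add]
  refine (norm_add_le _ _).trans (add_le_add ((T.norm_le _).trans hzw) ?_)
  refine (T.mul_le' _ _).trans ?_
  calc ‖T.ι (h - T.τ h • 1)‖ * ‖c * z‖ ≤ Real.sqrt (C0 * (F0.card * (2 * d))) * 1 :=
        mul_le_mul h2 hw (norm_nonneg _) (Real.sqrt_nonneg _)
    _ = _ := mul_one _

end Pool.Agent.AbCoc
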